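import Pool.Agent.H77.Lm.Comb

set_option autoImplicit false

/-!
# Infinitely many Legendrian knots have a stabilization of smaller mosaic number

The definitions are in `Pool.Agent.H77.Lm.Defs` (fronts, Legendrian isotopy, stabilizations,
mosaics) and at the end of `Pool.Agent.H77.Lm.Valid` (the front of a mosaic, the mosaic number).

Idea of the proof. Every front of an `n`-mosaic satisfies `4 * rot + tb ≤ n ^ 2`. So the
stabilization of the Legendrian unknot with `a` positive and no negative zigzags needs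
`n ^ 2 ≥ 3 * a - 1`. On the other hand, there are `n`-mosaics almost all of whose tiles contain two
cusps; they show the unknot with about `n ^ 2 / 2` positive and `n ^ 2 / 2` negative zigzags. If we
remove its negative zigzags one by one, the mosaic number has to become larger than `n` at some step.
-/

namespace Pool.Agent.Results.MP_7f4ea8_gt.StabMosaic

open Pool.Agent.H77.Lm

theorem mosaicNumber_le {Λ : Knot} {n : ℕ} (h : HasMosaic n Λ) : mosaicNumber Λ ≤ n :=
  iInf₂_le n h

theorem lt_mosaicNumber {Λ : Knot} {n : ℕ} (h : ∀ k ≤ n, ¬ HasMosaic k Λ) :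
    (n : ℕ∞) < mosaicNumber Λ := by
  have h1 : ((n + 1 : ℕ) : ℕ∞) ≤ mosaicNumber Λ := by
    apply le_iInf₂
    intro k hk
    rw [Nat.cast_le]
    by_contra hlt
    exact h k (by omega) hk
  refine lt_of_lt_of_le ?_ h1
  rw [Nat.cast_lt]
  omega

/-- Infinitely many oriented Legendrian knots `Λ` (up to Legendrian isotopy) have a stabilization
`Λ'` whose mosaic number is smaller than the mosaic number of `Λ`. -/
theorem result : {Λ : Knot | mosaicNumber Λ ≠ ⊤ ∧
    ∃ Λ' : Knot, IsStabilization Λ Λ' ∧ mosaicNumber Λ' < mosaicNumber Λ}.Infinite := by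
  intro hfin
  obtain ⟨B, hB⟩ := (hfin.image (fun Λ : Knot => linkTot 1 0 Λ.1)).bddAbove
  obtain ⟨u, v, h1, h2, h3⟩ := family (max 6 B.toNat) (le_max_left _ _)
  obtain ⟨n, hn⟩ := std_hasMosaic (u ++ v)
  obtain ⟨k, hk, hm⟩ := h1
  have hmem : stdKnot (u ++ v) ∈ {Λ : Knot | mosaicNumber Λ ≠ ⊤ ∧
      ∃ Λ' : Knot, IsStabilization Λ Λ' ∧ mosaicNumber Λ' < mosaicNumber Λ} := by
    refine ⟨ne_top_of_le_ne_top (ENat.natCast_ne_top n) (mosaicNumber_le hn),
      stdKnot (u ++ false :: v), std_stab u v, ?_⟩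
    refine lt_of_le_of_lt (mosaicNumber_le hm) (lt_of_le_of_lt ?_ (lt_mosaicNumber
      (n := 2 * max 6 B.toNat + 2) ?_))
    · exact_mod_cast hk
    · intro l hl hl'
      exact h2 ⟨l, hl, hl'⟩
  have h4 := hB (Set.mem_image_of_mem _ hmem)
  simp only [std_tot] at h4
  have h5 : (B.toNat : ℤ) ≤ (u ++ v).count true := by
    exact_mod_cast (le_max_right 6 B.toNat).trans h3
  have h6 := Int.self_le_toNat B
  have h7 : (0 : ℤ) ≤ B.toNat := by positivity
  linarith

end Pool.Agent.Results.MP_7f4ea8_gt.StabMosaic
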